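import Pool.Agent.Lib.MP_31e124_gt.NA.Main

/-!
MP_31e124_gt. The sign of the top coefficient of the hyperbolic torsion polynomial for negative
amphichiral knots: it is positive if and only if its exponent is odd. The group is given by the
presentation from a Seifert surface which is disjoint from its mirror image, the mirror symmetry by an
explicit endomorphism; the properties of the holonomy representation which are used are listed in
`Holonomy`.
-/

namespace Pool.Agent.Results.MP_31e124_gt.NegativeAmphichiral

open Pool.Agent.Lib.MP_31e124_gt.NA LaurentPolynomial
open scoped MatrixGroups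

theorem result (g : ℕ) (u v : Fin (2 * g) → Word g) (α : KG u v →* SL(2, ℂ)) (hα : Holonomy α)
    (τ : ℂ[T;T⁻¹]) (h0 : τ ≠ 0) (hτ : IsTorsion α τ) : TopSign τ :=
  main hα τ h0 hτ

end Pool.Agent.Results.MP_31e124_gt.NegativeAmphichiral
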