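import Pool.Agent.Lib.MP_31e124_gt.BP.Main
import Pool.Agent.Lib.MP_31e124_gt.BP.TwoB

/-!
MP_31e124_gt. The top coefficient of the hyperbolic torsion polynomial is positive for all amphichiral
two-bridge knots. The group is given by the presentation of the plumbed Seifert surface, the mirror
symmetry by an explicit endomorphism; the properties of the holonomy representation which are used are
listed in `Holonomy`.
-/

namespace Pool.Agent.Results.MP_31e124_gt.TwoBridge

open Pool.Agent.Lib.MP_31e124_gt.BP LaurentPolynomial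
open scoped MatrixGroups

theorem result (g : ℕ) (b : ℕ → ℤ) (hb : ∀ k, b k ≠ 0)
    (hp : ∀ k, 1 ≤ k → k ≤ 2 * g → b (2 * g + 1 - k) = b k)
    (α : (twoBridge g b hb).G →* SL(2, ℂ)) (hα : Holonomy (twoBridge g b hb) α)
    (hm : ∀ x : (twoBridge g b hb).G, trc (twoBridge g b hb) α (mirror g b hb hp x) =
      (starRingEnd ℂ) (trc (twoBridge g b hb) α x))
    (τ : ℂ[T;T⁻¹]) (hτ : IsTorsion (twoBridge g b hb) α τ) : PosTop τ := by
  refine main (twoBridge g b hb) α hα (mirror g b hb hp) Fin.rev ⟨Fin.rev_rev, ?_, ?_, hm,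
    mirror_cls g b hb hp⟩ τ hτ
  · intro v h
    have h1 := congrArg Fin.val h
    rw [Fin.val_rev] at h1
    have h2 := v.2
    omega
  · intro v
    have h2 := v.2
    have h1 : b ((v.rev : ℕ) + 1) = b ((v : ℕ) + 1) := by
      rw [Fin.val_rev, ← hp ((v : ℕ) + 1) (by omega) (by omega)]
      congr 1
      omega
    exact congrArg abs h1

end Pool.Agent.Results.MP_31e124_gt.TwoBridge
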